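import Mathlib
import Pool.Agent.Zk81.GT.InstB

/-!
# Integers as branch points over `ℚ(t_1, …, t_n)` (project GT)
-/

set_option autoImplicit false
set_option linter.all false

namespace Pool.Agent.Zk17.GT

open Pool.Agent.Zk12.GT Pool.Agent.Zk95.TD Pool.Agent.Zk12.FG

section

variable {n : ℕ} {k₁ : Type} [Field k₁] [Algebra ℚ k₁] {t : Fin n → k₁} {K : Type} {e : K → ℤ}

/-- **CrossRatio** for integers in `ℚ(t_1, …, t_n)` -/
theorem crossRatioK_int (ht : RatFn ℚ t) (hC : CrossRatio e) : CrossRatioK (fun i => (e i : k₁)) := by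
  intro i j hij
  obtain ⟨l, l', h3, h4, h5, h6, h7⟩ := hC i j hij
  refine ⟨l, l', h3, h4, h5, h6, ?_⟩
  have h8 := Pool.Agent.Zk81.GT.int_not_sq ht.1 ht.2 h7
  intro h9
  apply h8
  convert h9 using 1
  push_cast
  ring

theorem crossRatioK_alg (ht : RatFn ℚ t) (hC : CrossRatio e) :
    CrossRatioK (fun i => algebraMap ℚ k₁ (e i)) := by
  simpa using crossRatioK_int ht hC

/-- **Progressions** for integers in a field over `ℚ` -/
theorem progressionsK_int (hP : Progressions e) : ProgressionsK (fun i => (e i : k₁)) := by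
  intro i
  obtain ⟨l, z, δ, hδ, hl, hAP⟩ := hP i
  refine ⟨l, algebraMap ℚ k₁ z, algebraMap ℚ k₁ δ, (_root_.map_ne_zero _).2 hδ, hl, fun j => ?_⟩
  have h3 := congrArg (algebraMap ℚ k₁) (hAP j)
  simp only [map_inv₀, map_sub, map_intCast, map_add, map_mul, map_natCast] at h3
  exact h3

theorem progressionsK_alg (hP : Progressions e) : ProgressionsK (fun i => algebraMap ℚ k₁ (e i)) := by
  simpa using progressionsK_int (k₁ := k₁) hP

theorem injective_int (he : Function.Injective e) : Function.Injective (fun i => (e i : k₁)) := by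
  haveI : CharZero k₁ := algebraRat.charZero k₁
  exact fun i j h => he (Int.cast_injective h)

end

/-- the branch points `0, 1, …, N - 1` -/
def consec (N : ℕ) : Fin N → ℤ := fun i => (i : ℤ)

lemma progressions_consec {N : ℕ} (hN : 16 ≤ N) : Progressions (consec N) := by
  intro i
  obtain ⟨i, hi⟩ := i
  have key : ∀ (a b c d : ℕ) (ha : a < N) (hb : b < N) (hc : c < N) (hd : d < N) (z δ : ℚ), δ ≠ 0 →
      a ≠ i → b ≠ i → c ≠ i → d ≠ i → ((a : ℚ) - i)⁻¹ = z → ((b : ℚ) - i)⁻¹ = z + δ →
      ((c : ℚ) - i)⁻¹ = z + 2 * δ → ((d : ℚ) - i)⁻¹ = z + 3 * δ →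
      ∃ (l : Fin 4 → Fin N) (z δ : ℚ), δ ≠ 0 ∧ (∀ j, l j ≠ ⟨i, hi⟩) ∧
        ∀ j : Fin 4, ((consec N (l j) : ℚ) - consec N ⟨i, hi⟩)⁻¹ = z + (j : ℕ) * δ := by
    intro a b c d ha hb hc hd z δ hδ h1 h2 h3 h4 g1 g2 g3 g4
    refine ⟨![⟨a, ha⟩, ⟨b, hb⟩, ⟨c, hc⟩, ⟨d, hd⟩], z, δ, hδ, fun j => ?_, fun j => ?_⟩
    · fin_cases j <;> simp [Fin.ext_iff, h1, h2, h3, h4]
    · fin_cases j
      · simpa [consec] using g1
      · simpa [consec] using g2
      · simpa [consec] using g3
      · simpa [consec] using g4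
  rcases lt_or_ge i 3 with h3 | h3
  · refine key (i + 12) (i + 6) (i + 4) (i + 3) (by omega) (by omega) (by omega) (by omega)
      (1 / 12) (1 / 12) (by norm_num) (by omega) (by omega) (by omega) (by omega) ?_ ?_ ?_ ?_ <;>
    push_cast <;> rw [add_sub_cancel_left] <;> norm_num
  rcases lt_or_ge i (N - 3) with h4 | h4
  · obtain ⟨m, rfl⟩ := Nat.exists_eq_add_of_le h3
    refine key (3 + m - 1) (3 + m - 3) (3 + m + 3) (3 + m + 1) (by omega) (by omega) (by omega)
      (by omega) (-1) (2 / 3) (by norm_num) (by omega) (by omega) (by omega) (by omega) ?_ ?_ ?_ ?_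
    · rw [show 3 + m - 1 = m + 2 by omega]; push_cast
      rw [show ((m : ℚ) + 2 - (3 + m)) = -1 by ring]; norm_num
    · rw [show 3 + m - 3 = m by omega]; push_cast
      rw [show ((m : ℚ) - (3 + m)) = -3 by ring]; norm_num
    · push_cast; rw [add_sub_cancel_left]; norm_num
    · push_cast; rw [add_sub_cancel_left]; norm_num
  · obtain ⟨m, rfl⟩ := Nat.exists_eq_add_of_le (show 12 ≤ i by omega)
    refine key (12 + m - 12) (12 + m - 6) (12 + m - 4) (12 + m - 3) (by omega) (by omega)
      (by omega) (by omega) (-1 / 12) (-1 / 12) (by norm_num) (by omega) (by omega) (by omega)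
      (by omega) ?_ ?_ ?_ ?_
    · rw [show 12 + m - 12 = m by omega]; push_cast
      rw [show ((m : ℚ) - (12 + m)) = -12 by ring]; norm_num
    · rw [show 12 + m - 6 = m + 6 by omega]; push_cast
      rw [show ((m : ℚ) + 6 - (12 + m)) = -6 by ring]; norm_num
    · rw [show 12 + m - 4 = m + 8 by omega]; push_cast
      rw [show ((m : ℚ) + 8 - (12 + m)) = -4 by ring]; norm_num
    · rw [show 12 + m - 3 = m + 9 by omega]; push_cast
      rw [show ((m : ℚ) + 9 - (12 + m)) = -3 by ring]; norm_num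

lemma not_square_neg {z : ℤ} (h : z < 0) : ¬ IsSquare z := by
  rintro ⟨r, rfl⟩
  nlinarith [mul_self_nonneg r]

lemma not_square_twelve : ¬ IsSquare (12 : ℤ) := by
  rintro ⟨r, h⟩
  have h1 : r < 4 := by nlinarith
  have h2 : -4 < r := by nlinarith
  interval_cases r <;> omega

lemma crossRatio_consec {N : ℕ} (hev : Even N) (hN : 16 ≤ N) : CrossRatio (consec N) := by
  -- the case `i < k`
  have main : ∀ i k : ℕ, i < k → k < N → ∃ l l' : ℕ, l < N ∧ l' < N ∧ l ≠ i ∧ l ≠ k ∧ l' ≠ i ∧
      l' ≠ k ∧ ¬ IsSquare (((i : ℤ) - l) * ((i : ℤ) - l') * (((k : ℤ) - l) * ((k : ℤ) - l'))) := by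
    intro i k hik hk
    rcases Nat.lt_or_ge (i + 1) k with h2 | h2
    · rcases Nat.eq_zero_or_pos i with h0 | h0
      · rcases Nat.lt_or_ge (k + 1) N with h3 | h3
        · refine ⟨i + 1, N - 1, by omega, by omega, by omega, by omega, by omega, by omega,
            not_square_neg ?_⟩
          have a1 : ((i : ℤ) - (i + 1 : ℕ)) < 0 := by omega
          have a2 : ((i : ℤ) - (N - 1 : ℕ)) < 0 := by omega
          have a3 : 0 < ((k : ℤ) - (i + 1 : ℕ)) := by omega
          have a4 : ((k : ℤ) - (N - 1 : ℕ)) < 0 := by omega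
          exact mul_neg_of_pos_of_neg (mul_pos_of_neg_of_neg a1 a2) (mul_neg_of_pos_of_neg a3 a4)
        · -- `i = 0`, `k = N - 1`
          obtain ⟨n, hn⟩ : ∃ n, N = 2 * n + 2 := ⟨N / 2 - 1, by
            obtain ⟨r, hr⟩ := hev
            omega⟩
          obtain ⟨p, hp, hp1, hp2⟩ := Nat.exists_prime_lt_and_le_two_mul n (by omega)
          have hkn : k = 2 * n + 1 := by omega
          obtain ⟨l', hl1, hl2, hl3⟩ : ∃ l' : ℕ, 1 ≤ l' ∧ l' ≤ 2 ∧ k - l' ≠ p := by
            by_cases h : k - 1 = p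
            · exact ⟨2, by omega, le_rfl, by omega⟩
            · exact ⟨1, le_rfl, by omega, h⟩
          refine ⟨p, l', by omega, by omega, by omega, by omega, by omega, by omega, ?_⟩
          rintro ⟨r, hr⟩
          have hpp : Prime (p : ℤ) := Nat.prime_iff_prime_int.1 hp
          have e1 : ((i : ℤ) - p) * ((i : ℤ) - l') * (((k : ℤ) - p) * ((k : ℤ) - l')) =
              p * (((k : ℤ) - p) * (l' * ((k : ℤ) - l'))) := by
            rw [h0]; push_cast; ring
          rw [e1] at hr
          have h4 : (p : ℤ) ∣ r := by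
            rcases hpp.dvd_or_dvd (hr ▸ dvd_mul_right _ _ : (p : ℤ) ∣ r * r) with h | h <;> exact h
          obtain ⟨u, rfl⟩ := h4
          have h5 : ((k : ℤ) - p) * (l' * ((k : ℤ) - l')) = p * (u * u) := by
            have hp0 : (p : ℤ) ≠ 0 := by
              have := hp.pos
              omega
            apply mul_left_cancel₀ hp0
            rw [hr]; ring
          have h6 : (p : ℤ) ∣ ((k : ℤ) - p) * (l' * ((k : ℤ) - l')) := ⟨_, h5⟩
          rcases hpp.dvd_or_dvd h6 with h | h
          · have := Int.le_of_dvd (by omega) h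
            omega
          · rcases hpp.dvd_or_dvd h with h | h
            · have := Int.le_of_dvd (by omega) h
              omega
            · obtain ⟨w, hw⟩ := h
              have hw1 : w < 2 := by
                by_contra hw2
                have : (p : ℤ) * 2 ≤ p * w := by
                  apply mul_le_mul_of_nonneg_left (by omega) (by omega)
                omega
              have hw3 : 0 < w := by
                by_contra hw2
                have : (p : ℤ) * w ≤ 0 := mul_nonpos_of_nonneg_of_nonpos (by omega) (by omega)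
                omega
              have hw4 : w = 1 := by omega
              rw [hw4, mul_one] at hw
              omega
      · refine ⟨i + 1, 0, by omega, by omega, by omega, by omega, by omega, by omega,
          not_square_neg ?_⟩
        have a1 : ((i : ℤ) - (i + 1 : ℕ)) < 0 := by omega
        have a2 : 0 < ((i : ℤ) - (0 : ℕ)) := by omega
        have a3 : 0 < ((k : ℤ) - (i + 1 : ℕ)) := by omega
        have a4 : 0 < ((k : ℤ) - (0 : ℕ)) := by omega
        exact mul_neg_of_neg_of_pos (mul_neg_of_neg_of_pos a1 a2) (mul_pos a3 a4)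
    · have hk1 : k = i + 1 := by omega
      subst hk1
      rcases Nat.lt_or_ge (i + 3) N with h3 | h3
      · refine ⟨i + 2, i + 3, by omega, by omega, by omega, by omega, by omega, by omega, ?_⟩
        have e1 : ((i : ℤ) - (i + 2 : ℕ)) * ((i : ℤ) - (i + 3 : ℕ)) *
            ((((i + 1 : ℕ) : ℤ) - (i + 2 : ℕ)) * (((i + 1 : ℕ) : ℤ) - (i + 3 : ℕ))) = 12 := by
          push_cast; ring
        rw [e1]
        exact not_square_twelve
      · obtain ⟨m, rfl⟩ := Nat.exists_eq_add_of_le (show 2 ≤ i by omega)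
        refine ⟨m + 1, m, by omega, by omega, by omega, by omega, by omega, by omega, ?_⟩
        have e1 : (((2 + m : ℕ) : ℤ) - (m + 1 : ℕ)) * (((2 + m : ℕ) : ℤ) - (m : ℕ)) *
            ((((2 + m + 1 : ℕ) : ℤ) - (m + 1 : ℕ)) * (((2 + m + 1 : ℕ) : ℤ) - (m : ℕ))) = 12 := by
          push_cast; ring
        rw [e1]
        exact not_square_twelve
  rintro ⟨i, hi⟩ ⟨k, hk⟩ hik
  have hik' : i ≠ k := fun h => hik (by simp [h])
  rcases Nat.lt_or_gt_of_ne hik' with h | h
  · obtain ⟨l, l', h1, h2, h3, h4, h5, h6, h7⟩ := main i k h hk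
    exact ⟨⟨l, h1⟩, ⟨l', h2⟩, by simpa [Fin.ext_iff] using h3, by simpa [Fin.ext_iff] using h4,
      by simpa [Fin.ext_iff] using h5, by simpa [Fin.ext_iff] using h6, h7⟩
  · obtain ⟨l, l', h1, h2, h3, h4, h5, h6, h7⟩ := main k i h hi
    refine ⟨⟨l, h1⟩, ⟨l', h2⟩, by simpa [Fin.ext_iff] using h4, by simpa [Fin.ext_iff] using h3,
      by simpa [Fin.ext_iff] using h6, by simpa [Fin.ext_iff] using h5, fun h8 => h7 ?_⟩
    rw [mul_comm] at h8
    exact h8

theorem consec_injective (N : ℕ) : Function.Injective (consec N) := by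
  intro i j h
  simp only [consec] at h
  exact Fin.ext (by exact_mod_cast h)

theorem ex_injective : Function.Injective ex := by
  decide

section

variable {n : ℕ} {k₁ : Type} [Field k₁] [Algebra ℚ k₁] {t : Fin n → k₁}

/-- the points `0, 6, 10, 15, 30, -30` -/
theorem inst_ex (ht : RatFn ℚ t) : Function.Injective (fun i => (ex i : k₁)) ∧
    Even (Fintype.card (Fin 6)) ∧ CrossRatioK (fun i => (ex i : k₁)) ∧
    ProgressionsK (fun i => (ex i : k₁)) :=
  ⟨injective_int ex_injective, by decide, crossRatioK_int ht crossRatio_ex,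
    progressionsK_int progressions_ex⟩

/-- the points `0, 1, …, N - 1` -/
theorem inst_consec (ht : RatFn ℚ t) {N : ℕ} (hev : Even N) (hN : 16 ≤ N) :
    Function.Injective (fun i => (consec N i : k₁)) ∧ Even (Fintype.card (Fin N)) ∧
    CrossRatioK (fun i => (consec N i : k₁)) ∧ ProgressionsK (fun i => (consec N i : k₁)) :=
  ⟨injective_int (consec_injective N), by rwa [Fintype.card_fin], crossRatioK_int ht (crossRatio_consec hev hN),
    progressionsK_int (progressions_consec hN)⟩

/-- the points `e_i + h_m`, `e = 0, 6, 10, 15, 30, -30`, `h = 0, t_1, …, t_n` -/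
theorem inst_shifted_ex (ht : RatFn ℚ t) : Function.Injective (Pool.Agent.Zk81.GT.shifted ex t) ∧
    Even (Fintype.card (Fin 6 × Fin (n + 1))) ∧ CrossRatioK (Pool.Agent.Zk81.GT.shifted ex t) ∧
    ProgressionsK (Pool.Agent.Zk81.GT.shifted ex t) :=
  ⟨Pool.Agent.Zk81.GT.shifted_injective ht.1 ex_injective,
    Pool.Agent.Zk81.GT.even_card (by decide),
    Pool.Agent.Zk81.GT.crossRatioK_shifted ht.1 ht.2 ex_injective crossRatio_ex progressions_ex,
    Pool.Agent.Zk81.GT.progressionsK_shifted progressions_ex⟩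

end

end Pool.Agent.Zk17.GT
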